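import Pool.Agent.H17.SD.Targets

/-!
# MP_70ba79_ag, surfaces: module ITA (two forms of integrality)
-/

set_option autoImplicit false

open MvPolynomial SC Pool.Agent.H27.LV
open Pool.Agent.H92.SF Pool.Agent.H3.SF Pool.Agent.H17.SD

namespace Pool.Agent.H48.SFG

theorem pf_ITA : T_ITA := by
  intro k F ι _ _ _ u a
  have hPA : PA k u = (aeval u : MvPolynomial ι k →ₐ[k] F).range :=
    Algebra.adjoin_range_eq_range_aeval k u
  have hmem : ∀ x : MvPolynomial ι k, aeval u x ∈ PA k u := by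
    intro x
    rw [hPA]
    exact ⟨x, rfl⟩
  obtain ⟨g, hg⟩ : ∃ g : MvPolynomial ι k →+* PA k u, ∀ x, ((g x : PA k u) : F) = aeval u x :=
    ⟨((aeval u).codRestrict (PA k u) hmem : MvPolynomial ι k →ₐ[k] PA k u), fun x => rfl⟩
  have hcomp : (algebraMap (PA k u) F).comp g =
      ((aeval u : MvPolynomial ι k →ₐ[k] F) : MvPolynomial ι k →+* F) :=
    RingHom.ext fun x => hg x
  have hsurj : Function.Surjective g := by
    rintro ⟨y, hy⟩
    have hy' := hy
    rw [hPA] at hy'
    obtain ⟨x, hx⟩ := hy'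
    exact ⟨x, Subtype.ext ((hg x).trans hx)⟩
  constructor
  · rintro ⟨p, hp, h0⟩
    refine ⟨p.map g, hp.map g, ?_⟩
    rw [Polynomial.eval₂_map, hcomp]
    exact h0
  · rintro ⟨p, hp, h0⟩
    have hl : p ∈ Polynomial.lifts g := by
      rw [Polynomial.lifts_iff_coeff_lifts]
      exact fun n => hsurj _
    obtain ⟨q, hq, -, hqm⟩ := Polynomial.lifts_and_natDegree_eq_and_monic hl hp
    refine ⟨q, hqm, ?_⟩
    rw [← hq, Polynomial.eval₂_map, hcomp] at h0
    exact h0

end Pool.Agent.H48.SFG
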